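import Pool.Agent.W209.KT.Stm

set_option autoImplicit false

namespace Pool.Agent.W579.KT

open Pool.Agent.W209.KT

noncomputable def lin (A : Fin 2 → Fin 11 → ℝ) : (Fin 10 → ℝ) →ₗ[ℝ] (Fin 12 → ℝ) where
  toFun x := Fin.append x (fun j : Fin 2 => ∑ l : Fin 10, A j l.succ * x l)
  map_add' x y := by
    funext i
    refine Fin.addCases (m := 10) (n := 2) (fun i => ?_) (fun i => ?_) i
    · simp only [Pi.add_apply]
      erw [Fin.append_left, Fin.append_left, Fin.append_left]
      rfl
    · simp only [Pi.add_apply]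
      erw [Fin.append_right, Fin.append_right, Fin.append_right]
      rw [← Finset.sum_add_distrib]
      exact Finset.sum_congr rfl fun l _ => by ring
  map_smul' c x := by
    funext i
    refine Fin.addCases (m := 10) (n := 2) (fun i => ?_) (fun i => ?_) i
    · simp only [Pi.smul_apply, RingHom.id_apply, smul_eq_mul]
      erw [Fin.append_left, Fin.append_left]
      rfl
    · simp only [Pi.smul_apply, RingHom.id_apply, smul_eq_mul]
      erw [Fin.append_right, Fin.append_right]
      rw [Finset.mul_sum]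
      exact Finset.sum_congr rfl fun l _ => by ring

theorem pt_eq (A : Fin 2 → Fin 11 → ℝ) (x : Fin 10 → ℝ) : pt A x = lin A x + pt A 0 := by
  funext i
  refine Fin.addCases (m := 10) (n := 2) (fun i => ?_) (fun i => ?_) i
  · simp only [Pi.add_apply]
    show Fin.append x (fun j : Fin 2 => aff A j x) (Fin.castAdd 2 i) =
      Fin.append x (fun j : Fin 2 => ∑ l : Fin 10, A j l.succ * x l) (Fin.castAdd 2 i) +
      Fin.append (0 : Fin 10 → ℝ) (fun j : Fin 2 => aff A j 0) (Fin.castAdd 2 i)
    rw [Fin.append_left, Fin.append_left, Fin.append_left]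
    simp
  · simp only [Pi.add_apply]
    show Fin.append x (fun j : Fin 2 => aff A j x) (Fin.natAdd 10 i) =
      Fin.append x (fun j : Fin 2 => ∑ l : Fin 10, A j l.succ * x l) (Fin.natAdd 10 i) +
      Fin.append (0 : Fin 10 → ℝ) (fun j : Fin 2 => aff A j 0) (Fin.natAdd 10 i)
    rw [Fin.append_right, Fin.append_right, Fin.append_right]
    simp [aff]
    ring

noncomputable def G (i : ℕ) (t : ℝ) : Fin 10 → ℝ :=
  fun l => ((l.1 + 1).descFactorial i : ℝ) * t ^ (l.1 + 1 - i)

theorem G_zero (t : ℝ) : G 0 t = gam t := by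
  funext l
  simp [G, gam]

theorem hasDerivAt_G (i : ℕ) (t : ℝ) : HasDerivAt (G i) (G (i + 1) t) t := by
  rw [hasDerivAt_pi]
  intro l
  have h := (hasDerivAt_pow (l.1 + 1 - i) t).const_mul ((l.1 + 1).descFactorial i : ℝ)
  have e : G (i + 1) t l = ((l.1 + 1).descFactorial i : ℝ) *
      (((l.1 + 1 - i : ℕ) : ℝ) * t ^ (l.1 + 1 - i - 1)) := by
    simp only [G, Nat.descFactorial_succ, Nat.cast_mul]
    rw [show l.1 + 1 - (i + 1) = l.1 + 1 - i - 1 by omega]
    ring
  rw [e]
  exact h

noncomputable def linC (A : Fin 2 → Fin 11 → ℝ) : (Fin 10 → ℝ) →L[ℝ] (Fin 12 → ℝ) :=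
  LinearMap.toContinuousLinearMap (lin A)

theorem linC_apply (A : Fin 2 → Fin 11 → ℝ) (x : Fin 10 → ℝ) : linC A x = lin A x := rfl

theorem iter (A : Fin 2 → Fin 11 → ℝ) (i : ℕ) :
    iteratedDeriv i (fun t => pt A (gam t)) =
      fun t => linC A (G i t) + (if i = 0 then pt A 0 else 0) := by
  induction i with
  | zero =>
    funext t
    rw [iteratedDeriv_zero, if_pos rfl, G_zero, linC_apply]
    exact pt_eq A (gam t)
  | succ i ih =>
    rw [iteratedDeriv_succ, ih]
    funext t
    have h := ((linC A).hasFDerivAt.comp_hasDerivAt t (hasDerivAt_G i t)).add_const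
      (if i = 0 then pt A 0 else 0)
    have h2 := h.deriv
    rw [if_neg (Nat.succ_ne_zero i), add_zero, ← h2]
    rfl

theorem span_G (t : ℝ) :
    Submodule.span ℝ (Set.range fun i : Fin 10 => G (i.1 + 1) t) = ⊤ := by
  let M : Matrix (Fin 10) (Fin 10) ℝ := Matrix.of fun i => G (i.1 + 1) t
  have hM : M.BlockTriangular id := by
    intro i j hij
    have hij' : j.1 < i.1 := hij
    show ((j.1 + 1).descFactorial (i.1 + 1) : ℝ) * t ^ (j.1 + 1 - (i.1 + 1)) = 0
    rw [Nat.descFactorial_eq_zero_iff_lt.mpr (by omega)]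
    simp
  have hd : M.det ≠ 0 := by
    rw [Matrix.det_of_upperTriangular hM]
    refine Finset.prod_ne_zero_iff.mpr fun i _ => ?_
    show ((i.1 + 1).descFactorial (i.1 + 1) : ℝ) * t ^ (i.1 + 1 - (i.1 + 1)) ≠ 0
    rw [Nat.descFactorial_self, Nat.sub_self, pow_zero, mul_one]
    exact_mod_cast Nat.factorial_ne_zero _
  have hl : LinearIndependent ℝ M.row := by
    rw [Matrix.linearIndependent_rows_iff_isUnit, Matrix.isUnit_iff_isUnit_det]
    exact isUnit_iff_ne_zero.mpr hd
  have h := hl.span_eq_top_of_card_eq_finrank' (by simp)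
  exact h

theorem nd : S_nd := by
  intro A
  constructor
  · have h : (fun t => pt A (gam t)) = fun t => linC A (gam t) + pt A 0 := by
      funext t
      exact pt_eq A (gam t)
    rw [h]
    refine ((linC A).contDiff.comp ?_).add contDiff_const
    rw [contDiff_pi]
    intro l
    exact contDiff_id.pow _
  · intro t
    have h1 : {w : Fin 12 → ℝ | ∃ i, 1 ≤ i ∧ i ≤ 10 ∧
        w = iteratedDeriv i (fun t => pt A (gam t)) t} =
        (lin A) '' (Set.range fun i : Fin 10 => G (i.1 + 1) t) := by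
      ext w
      constructor
      · rintro ⟨i, hi1, hi2, rfl⟩
        refine ⟨G i t, ⟨⟨i - 1, by omega⟩, ?_⟩, ?_⟩
        · show G (i - 1 + 1) t = G i t
          rw [Nat.sub_add_cancel hi1]
        · rw [iter, if_neg (by omega)]
          exact (add_zero _).symm
      · rintro ⟨x, ⟨i, rfl⟩, rfl⟩
        refine ⟨i.1 + 1, by omega, by omega, ?_⟩
        rw [iter, if_neg (by omega)]
        exact (add_zero _).symm
    have h2 : {w : Fin 12 → ℝ | ∃ x y, w = pt A x - pt A y} =
        ((LinearMap.range (lin A) : Submodule ℝ (Fin 12 → ℝ)) : Set (Fin 12 → ℝ)) := by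
      ext w
      constructor
      · rintro ⟨x, y, rfl⟩
        refine ⟨x - y, ?_⟩
        rw [map_sub, pt_eq A x, pt_eq A y]
        abel
      · rintro ⟨x, rfl⟩
        refine ⟨x, 0, ?_⟩
        rw [pt_eq A x]
        abel
    rw [h1, h2, Submodule.span_image, span_G, Submodule.span_eq, ← LinearMap.range_eq_map]

end Pool.Agent.W579.KT
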